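import Mathlib

set_option autoImplicit false

namespace Pool.Agent.Results.MP_2248a2_co.Counter

open Finset

/-- Discrepancy of the colouring `c`: maximum of `|c(H)| - χ(H)` over induced subgraphs `H`. -/
noncomputable def phiC {V : Type} [Fintype V] (G : SimpleGraph V) (c : V → ℕ) : ℤ :=
  (univ : Finset (Finset V)).sup' univ_nonempty fun S =>
    ((S.image c).card : ℤ) - ((G.induce (S : Set V)).chromaticNumber.toNat : ℤ)

/-- Chromatic discrepancy: minimum of `phiC` over proper colourings. -/
noncomputable def phi {V : Type} [Fintype V] (G : SimpleGraph V) : ℤ :=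
  sInf {d | ∃ c : G.Coloring ℕ, d = phiC G c}

def adj (a b : Fin 35) : Bool := a != b && !([1, 7, 11, 16, 19, 24, 28, 34].contains (a - b).val)

def H : SimpleGraph (Fin 35) where
  Adj a b := adj a b = true
  symm := ⟨by decide +kernel⟩
  loopless := ⟨by decide +kernel⟩

def ok : ℕ → ℕ → List (Fin 35) → Bool
  | 0, _, _ => false
  | _, 0, _ => false
  | _ + 1, _ + 1, [] => true
  | f + 1, k + 1, v :: L => decide (L.length < k) || (ok f k (L.filter (adj v)) && ok f (k + 1) L)

theorem ok_spec : ∀ (f k : ℕ) (L : List (Fin 35)), ok f k L = true → ∀ S : Finset (Fin 35),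
    H.IsClique S → (∀ x ∈ S, x ∈ L) → S.card < k := by
  intro f
  induction f with
  | zero => intro k L h; simp [ok] at h
  | succ f ih =>
    intro k L h S hS hL
    rcases k with _ | k
    · simp [ok] at h
    rcases L with _ | ⟨v, L⟩
    · rw [eq_empty_of_forall_notMem (s := S) fun x hx => by simpa using hL x hx]; simp
    simp only [ok, Bool.or_eq_true, decide_eq_true_eq, Bool.and_eq_true] at h
    rcases h with h | ⟨h1, h2⟩
    · have := (card_le_card (show S ⊆ (v :: L).toFinset from fun x hx =>
        List.mem_toFinset.2 (hL x hx))).trans (List.toFinset_card_le _)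
      simp only [List.length_cons] at this
      omega
    by_cases hv : v ∈ S
    · have := ih _ _ h1 (S.erase v) (hS.subset (by simp)) fun x hx => by
        obtain ⟨a, b⟩ := mem_erase.1 hx
        exact List.mem_filter.2 ⟨by simpa [a] using hL x b, hS hv b a.symm⟩
      have := card_erase_add_one hv
      omega
    · exact ih _ _ h2 S hS fun x hx => by
        have : x ≠ v := by rintro rfl; exact hv hx
        simpa [this] using hL x hx

theorem omega_le : H.cliqueNum ≤ 8 := by
  obtain ⟨S, hS⟩ := H.exists_isNClique_cliqueNum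
  have := ok_spec 40 9 (List.finRange 35) (by decide +kernel) S hS.1 (by simp)
  rw [hS.2] at this
  omega

theorem alpha : ∀ a b c : Fin 35, a ≠ b → a ≠ c → b ≠ c →
    adj a b = true ∨ adj a c = true ∨ adj b c = true := by decide +kernel

theorem card_le {W : Type} [Fintype W] (G : SimpleGraph W) (f : W → Fin 35)
    (hf : Function.Injective f) (h : ∀ a b, H.Adj (f a) (f b) → G.Adj a b) :
    Fintype.card W ≤ 2 * G.chromaticNumber.toNat := by
  classical
  obtain ⟨c⟩ := G.colorable_chromaticNumber_of_fintype
  have := card_le_mul_card_image_of_maps_to (f := c) (s := univ) (t := univ)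
    (fun _ _ => mem_univ _) 2 fun i _ => by
      by_contra hc
      obtain ⟨x, y, z, hx, hy, hz, a, b, d⟩ := two_lt_card_iff.1 (not_le.1 hc)
      simp only [mem_filter, mem_univ, true_and] at hx hy hz
      rcases alpha _ _ _ (hf.ne a) (hf.ne b) (hf.ne d) with e | e | e <;>
        exact c.valid (h _ _ e) (by simp [hx, hy, hz])
  simpa using this

theorem phi_le {V : Type} [Fintype V] (G : SimpleGraph V) (c : G.Coloring ℕ) :
    phi G ≤ phiC G c := by
  refine csInf_le ⟨0, ?_⟩ ⟨c, rfl⟩
  intro d hd
  obtain ⟨e, he⟩ := hd
  rw [he]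
  refine le_trans ?_ (le_sup' _ (mem_univ ∅))
  have := ENat.toNat_le_of_le_coe
    ((G.induce ((∅ : Finset V) : Set V)).colorable_of_fintype.chromaticNumber_le)
  simp at this ⊢

theorem result : ∃ G : SimpleGraph (Fin 35),
    phi G < (G.chromaticNumber.toNat : ℤ) - (G.cliqueNum : ℤ) := by
  let c : H.Coloring ℕ := SimpleGraph.Coloring.mk (fun v => v.val / 2) (by
    have : ∀ a b : Fin 35, adj a b = true → a.val / 2 ≠ b.val / 2 := by decide +kernel
    intro a b h
    exact this _ _ h)
  have h1 : phi H ≤ phiC H c := by
    exact phi_le H c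
  have h2 : phiC H c ≤ 9 := by
    refine sup'_le _ _ fun S _ => ?_
    have a := card_le (H.induce (S : Set (Fin 35))) Subtype.val Subtype.val_injective fun _ _ h => h
    have b : (S.image c).card ≤ S.card := card_image_le
    have d : (S.image c).card ≤ (range 18).card := card_le_card fun x hx => by
      obtain ⟨v, -, rfl⟩ := mem_image.1 hx
      have := v.2
      exact mem_range.2 (show v.val / 2 < 18 by omega)
    simp only [coe_sort_coe, Fintype.card_coe, card_range] at a d
    omega
  have h3 := card_le H id Function.injective_id fun _ _ h => h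
  have h4 := omega_le
  rw [Fintype.card_fin] at h3
  exact ⟨H, by omega⟩

end Pool.Agent.Results.MP_2248a2_co.Counter
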